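import Pool.Agent.Helper99.EXC.GoalsD

/-!
# HIT: expected number of visits and hitting probability (project EXC)
-/

namespace Pool.Agent.Helper61.EXC

open Pool.Agent.Helper99.EXC Pool.Agent.Helper99.ERW Finset

theorem HIT : Pool.Agent.Helper99.EXC.HIT_stmt := by
  intro p hp0 hp1 Λ M hM h N
  have hhp : ∀ (N : ℕ) (s : St), 0 ≤ hp p N s := by
    intro N
    induction N with
    | zero => intro s; rw [hp]; split_ifs <;> norm_num
    | succ N ih =>
      intro s
      rw [hp]
      split_ifs
      · norm_num
      · have h1 := stp_mono hp0 hp1 (f := fun _ => (0 : ℝ)) (g := hp p N) (s := s) (fun e => ih _)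
        rwa [stp_const] at h1
  induction N with
  | zero =>
    intro s0
    rw [Rw_zero]
    exact mul_nonneg hM (hhp 0 s0)
  | succ N ih =>
    intro s0
    by_cases h0 : s0.1 = 0
    · refine (h (N + 1) s0 h0).trans (le_of_eq ?_)
      rw [hp, if_pos h0, mul_one]
    · by_cases hs : s0.1 ∈ Λ
      · rw [Rw_succ, inn_in Λ hs, if_neg h0, zero_add, KK_in p Λ hs, hp, if_neg h0, ← stp_smul]
        exact stp_mono hp0 hp1 fun e => ih _
      · rw [Rw_out p Λ _ _ hs]
        exact mul_nonneg hM (hhp _ s0)

end Pool.Agent.Helper61.EXC
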