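import Pool.Agent.Helper99.EXC.GoalsE

/-!
# LAT: lattice sums (project EXC)
-/

open Finset

namespace Pool.Agent.Helper61.EXC

open Pool.Agent.Helper99.EXC Pool.Agent.Helper99.ERW

theorem card_box2 (m : ℕ) : ((box 2 m).card : ℝ) = (2 * (m : ℝ) + 1) ^ 2 := by
  have h : (box 2 m).card = (2 * m + 1) ^ 2 := by
    unfold Pool.Agent.Helper99.ERW.box
    rw [Fintype.card_piFinset, Finset.prod_const, Int.card_Icc, Finset.card_univ, Fintype.card_fin]
    congr 1
    omega
  rw [h]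
  push_cast
  ring

theorem box_mono {m n : ℕ} (h : m ≤ n) : box 2 m ⊆ box 2 n := by
  intro x hx
  rw [mem_box] at hx ⊢
  intro l
  have := hx l
  omega

theorem nm_ring {m : ℕ} {z : Site 2} (h : z ∈ box 2 (m + 1) \ box 2 m) : nm z = (m : ℝ) + 1 := by
  rw [Finset.mem_sdiff, mem_box, mem_box] at h
  obtain ⟨h1, h2⟩ := h
  have h3 : ∀ l, |(z l : ℝ)| ≤ (m : ℝ) + 1 := by
    intro l
    have := h1 l
    have h4 : ((|z l| : ℤ) : ℝ) ≤ (((m + 1 : ℕ) : ℤ) : ℝ) := by exact_mod_cast this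
    rw [Int.cast_abs] at h4
    push_cast at h4
    exact h4
  have h5 : ∃ l, |(z l : ℝ)| = (m : ℝ) + 1 := by
    by_contra hno
    push Not at hno
    apply h2
    intro l
    have h6 := lt_of_le_of_ne (h3 l) (hno l)
    have h7 : ((|z l| : ℤ) : ℝ) < (((m + 1 : ℕ) : ℤ) : ℝ) := by
      rw [Int.cast_abs]
      push_cast
      exact h6
    have h8 : |z l| < ((m + 1 : ℕ) : ℤ) := by exact_mod_cast h7
    push_cast at h8
    omega
  unfold nm
  obtain ⟨l, hl⟩ := h5
  apply le_antisymm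
  · exact max_le (h3 0) (h3 1)
  · rw [← hl]
    fin_cases l
    · exact le_max_left _ _
    · exact le_max_right _ _

theorem sum_ring (f : ℝ → ℝ) (m : ℕ) : ∑ z ∈ box 2 (m + 1), f (nm z) =
    ∑ z ∈ box 2 m, f (nm z) + 8 * ((m : ℝ) + 1) * f ((m : ℝ) + 1) := by
  rw [← Finset.sum_sdiff (box_mono (Nat.le_succ m)), add_comm]
  congr 1
  rw [Finset.sum_congr rfl (g := fun _ => f ((m : ℝ) + 1)) (fun z hz => by rw [nm_ring hz]),
    Finset.sum_const, nsmul_eq_mul]
  congr 1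
  rw [Finset.card_sdiff_of_subset (box_mono (Nat.le_succ m)),
    Nat.cast_sub (Finset.card_le_card (box_mono (Nat.le_succ m))), card_box2, card_box2]
  push_cast
  ring

theorem nm_nonneg (z : Site 2) : 0 ≤ nm z := (abs_nonneg _).trans (le_max_left _ _)

/-- inverse squares, growth -/
theorem sq_grow (m j : ℕ) : ∑ z ∈ box 2 (m + j), 1 / (1 + nm z) ^ 2 ≤
    ∑ z ∈ box 2 m, 1 / (1 + nm z) ^ 2 + 8 * j / ((m : ℝ) + 1) := by
  induction j with
  | zero => simp
  | succ j ih =>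
    rw [← add_assoc, sum_ring (fun x => 1 / (1 + x) ^ 2)]
    have h1 : 8 * (((m + j : ℕ) : ℝ) + 1) * (1 / (1 + (((m + j : ℕ) : ℝ) + 1)) ^ 2) ≤
        8 / ((m : ℝ) + 1) := by
      have hm : (0 : ℝ) ≤ m := Nat.cast_nonneg m
      have hj : (0 : ℝ) ≤ j := Nat.cast_nonneg j
      push_cast
      rw [mul_one_div, div_le_div_iff₀ (by positivity) (by positivity)]
      nlinarith [mul_nonneg hm hj, mul_nonneg hj hj, mul_nonneg hm hm]
    have h2 : 8 * ((j + 1 : ℕ) : ℝ) / ((m : ℝ) + 1) = 8 * j / ((m : ℝ) + 1) + 8 / ((m : ℝ) + 1) := by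
      push_cast
      ring
    rw [h2]
    linarith

theorem sq_double (m : ℕ) : ∑ z ∈ box 2 (2 * m), 1 / (1 + nm z) ^ 2 ≤
    ∑ z ∈ box 2 m, 1 / (1 + nm z) ^ 2 + 8 := by
  have h := sq_grow m m
  rw [← two_mul] at h
  refine h.trans ?_
  have : 8 * (m : ℝ) / ((m : ℝ) + 1) ≤ 8 := by
    rw [div_le_iff₀ (by positivity)]
    linarith
  linarith

/-- inverse cubes, growth -/
theorem cu_grow (m j : ℕ) : ∑ z ∈ box 2 (m + j), 1 / (1 + nm z) ^ 3 ≤
    ∑ z ∈ box 2 m, 1 / (1 + nm z) ^ 3 + (8 / ((m : ℝ) + 1) - 8 / (((m + j : ℕ) : ℝ) + 1)) := by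
  induction j with
  | zero => simp
  | succ j ih =>
    rw [← add_assoc, sum_ring (fun x => 1 / (1 + x) ^ 3)]
    have h1 : 8 * (((m + j : ℕ) : ℝ) + 1) * (1 / (1 + (((m + j : ℕ) : ℝ) + 1)) ^ 3) ≤
        8 / (((m + j : ℕ) : ℝ) + 1) - 8 / (((m + j + 1 : ℕ) : ℝ) + 1) := by
      have hn : (0 : ℝ) ≤ ((m + j : ℕ) : ℝ) := Nat.cast_nonneg _
      push_cast
      push_cast at hn
      set n : ℝ := (m : ℝ) + j with hnd
      rw [div_sub_div _ _ (by positivity) (by positivity), mul_one_div,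
        div_le_div_iff₀ (by positivity) (by positivity)]
      nlinarith [mul_nonneg hn hn, mul_nonneg hn (mul_nonneg hn hn)]
    linarith

theorem LAT : Pool.Agent.Helper99.EXC.LAT_stmt := by
  intro b hb
  have hb' : (1 : ℝ) ≤ b := by exact_mod_cast hb
  refine ⟨25 * (b : ℝ) ^ 2 + (2 * (b : ℝ) + 1) ^ 2 + 8, by positivity, ?_, ?_, ?_, ?_⟩
  · intro k
    rw [Bx, card_box2]
    have h1 : (1 : ℝ) ≤ 2 ^ k := one_le_pow₀ (by norm_num)
    have h4 : (4 : ℝ) ^ k = (2 ^ k) ^ 2 := by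
      rw [← pow_mul, mul_comm, pow_mul]
      norm_num
    push_cast
    rw [h4, pow_succ]
    have h5 : 1 ≤ (b : ℝ) * 2 ^ k := by nlinarith
    have h6 : 2 * ((b : ℝ) * (2 ^ k * 2)) + 1 ≤ 5 * (b * 2 ^ k) := by linarith
    calc (2 * ((b : ℝ) * (2 ^ k * 2)) + 1) ^ 2 ≤ (5 * (b * 2 ^ k)) ^ 2 :=
          pow_le_pow_left₀ (by positivity) h6 2
      _ = 25 * (b : ℝ) ^ 2 * (2 ^ k) ^ 2 := by ring
      _ ≤ _ := by
        refine mul_le_mul_of_nonneg_right ?_ (by positivity)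
        nlinarith [sq_nonneg (2 * (b : ℝ) + 1)]
  · intro s
    have h1 : ∀ s : ℕ, ∑ z ∈ Bx b s, 1 / (1 + nm z) ^ 2 ≤ (2 * (b : ℝ) + 1) ^ 2 + 8 * s := by
      intro s
      induction s with
      | zero =>
        rw [Bx, pow_zero, mul_one, Nat.cast_zero, mul_zero, add_zero, ← card_box2]
        have h2 : ∑ z ∈ box 2 b, 1 / (1 + nm z) ^ 2 ≤ ∑ z ∈ box 2 b, (1 : ℝ) := by
          refine Finset.sum_le_sum fun z _ => ?_
          have := nm_nonneg z
          rw [div_le_one (by positivity)]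
          nlinarith
        simpa using h2
      | succ s ih =>
        have h2 : Bx b (s + 1) = box 2 (2 * (b * 2 ^ s)) := by
          rw [Bx, pow_succ]
          congr 1
          ring
        rw [h2]
        refine (sq_double _).trans ?_
        rw [Bx] at ih
        push_cast
        linarith
    refine (h1 (s + 1)).trans ?_
    have hs : (0 : ℝ) ≤ s := Nat.cast_nonneg s
    push_cast
    nlinarith [sq_nonneg (b : ℝ), sq_nonneg (2 * (b : ℝ) + 1), mul_nonneg hs (sq_nonneg (b : ℝ)),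
      mul_nonneg hs (sq_nonneg (2 * (b : ℝ) + 1))]
  · intro k s
    have h10 : (10 : ℝ) ≤ 25 * (b : ℝ) ^ 2 + (2 * (b : ℝ) + 1) ^ 2 + 8 := by nlinarith
    by_cases hks : k ≤ s
    · obtain ⟨j, hj⟩ : ∃ j, b * 2 ^ (s + 1) = b * 2 ^ (k + 1) + j := by
        refine ⟨b * 2 ^ (s + 1) - b * 2 ^ (k + 1), ?_⟩
        have : b * 2 ^ (k + 1) ≤ b * 2 ^ (s + 1) :=
          Nat.mul_le_mul_left _ (Nat.pow_le_pow_right (by norm_num) (by omega))
        omega
      have h1 : Bx b (k + 1) ⊆ Bx b (s + 1) := by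
        rw [Bx, Bx, hj]
        exact box_mono (Nat.le_add_right _ _)
      have h2 : ∑ y ∈ Bx b (s + 1) \ Bx b (k + 1), 1 / (1 + nm y) ^ 3 ≤
          8 / (((b * 2 ^ (k + 1) : ℕ) : ℝ) + 1) := by
        have h3 := Finset.sum_sdiff (f := fun y => 1 / (1 + nm y) ^ 3) h1
        have h4 := cu_grow (b * 2 ^ (k + 1)) j
        rw [← hj] at h4
        have h5 : (0 : ℝ) ≤ 8 / (((b * 2 ^ (s + 1) : ℕ) : ℝ) + 1) := by positivity
        rw [Bx, Bx] at h3 ⊢
        linarith
      have h6 : ∑ y ∈ Bx b (s + 1) \ Bx b (k + 1), 2 ^ k / (1 + nm y) ^ 3 =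
          2 ^ k * ∑ y ∈ Bx b (s + 1) \ Bx b (k + 1), 1 / (1 + nm y) ^ 3 := by
        rw [Finset.mul_sum]
        refine Finset.sum_congr rfl fun y _ => ?_
        ring
      rw [h6]
      refine le_trans (mul_le_mul_of_nonneg_left h2 (by positivity)) ?_
      refine le_trans ?_ h10
      rw [mul_div_assoc', div_le_iff₀ (by positivity)]
      push_cast
      have h7 : (0 : ℝ) < 2 ^ k := by positivity
      rw [pow_succ]
      nlinarith [mul_le_mul_of_nonneg_right hb' h7.le]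
    · have h1 : Bx b (s + 1) ⊆ Bx b (k + 1) := by
        rw [Bx, Bx]
        exact box_mono (Nat.mul_le_mul_left _ (Nat.pow_le_pow_right (by norm_num) (by omega)))
      rw [Finset.sdiff_eq_empty_iff_subset.2 h1, Finset.sum_empty]
      linarith
  · intro m
    induction m with
    | zero =>
      have h0 : box 2 0 = {0} := by
        ext x
        rw [mem_box, Finset.mem_singleton]
        constructor
        · intro h
          funext l
          have := h l
          simpa using this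
        · rintro rfl l
          simp
      rw [h0, Finset.sum_singleton]
      simp [nm]
    | succ m ih =>
      rw [sum_ring (fun x => 1 / (1 + x))]
      have h1 : 8 * ((m : ℝ) + 1) * (1 / (1 + ((m : ℝ) + 1))) ≤ 8 := by
        rw [mul_one_div, div_le_iff₀ (by positivity)]
        linarith
      push_cast
      linarith

end Pool.Agent.Helper61.EXC
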