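import Pool.Agent.Helper99.EXC.GoalsE

/-!
# POS: the good environments have positive probability (project EXC)
-/

open Finset MeasureTheory ProbabilityTheory Filter
open scoped ENNReal

namespace Pool.Agent.Helper61.EXC

open Pool.Agent.Helper99.EXC Pool.Agent.Helper99.ERW

/-- events with probability at least one half occur infinitely often with probability at least one
half -/
theorem half_le_limsup {Ω : Type*} [MeasurableSpace Ω] (P : Measure Ω) [IsProbabilityMeasure P]
    (A : ℕ → Set Ω) (hA : ∀ s, MeasurableSet (A s)) (h : ∀ᶠ s in atTop, 1 / 2 ≤ P.real (A s)) :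
    1 / 2 ≤ P.real {ω | ∃ᶠ s in atTop, ω ∈ A s} := by
  let B : ℕ → Set Ω := fun n => ⋃ s, ⋃ (_ : n ≤ s), A s
  have hB : ∀ n, MeasurableSet (B n) := fun n =>
    MeasurableSet.iUnion fun s => MeasurableSet.iUnion fun _ => hA s
  have hanti : Antitone B := by
    intro m n hmn
    refine Set.iUnion_mono fun s => ?_
    exact Set.iUnion_subset fun hs => Set.subset_iUnion_of_subset (hmn.trans hs) (le_refl _)
  have hL : {ω | ∃ᶠ s in atTop, ω ∈ A s} = ⋂ n, B n := by
    ext ω
    simp only [Set.mem_ofPred_eq, frequently_atTop, Set.mem_iInter, B, Set.mem_iUnion, exists_prop]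
  have hlim : Tendsto (fun n => P (B n)) atTop (nhds (P (⋂ n, B n))) :=
    tendsto_measure_iInter_atTop (fun n => (hB n).nullMeasurableSet) hanti ⟨0, measure_ne_top _ _⟩
  have hlim' : Tendsto (fun n => P.real (B n)) atTop (nhds (P.real (⋂ n, B n))) :=
    (ENNReal.tendsto_toReal (measure_ne_top _ _)).comp hlim
  rw [hL]
  refine ge_of_tendsto' hlim' fun n => ?_
  obtain ⟨s, hs, hn⟩ := (h.and (eventually_ge_atTop n)).exists
  refine hs.trans (measureReal_mono ?_ (measure_ne_top _ _))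
  exact Set.subset_iUnion_of_subset s (Set.subset_iUnion_of_subset hn (le_refl _))

theorem POS (hGME : GME_stmt) (hTJZ : TJZ_stmt) (hENV : ENV_stmt) : POS_stmt := by
  intro P _ hSE a W ha0 ha1 hW hV φ Φ κ C b k1 hScl δ hδ
  obtain ⟨J, M, hM, hev⟩ := hENV P hSE a W ha0 ha1 hW hV φ Φ κ C b k1 hScl δ hδ
  refine ⟨J, M, hM, fun h0 => ?_⟩
  have hL := half_le_limsup P (fun s => {ω | GS a Φ b k1 J δ M s ω})
    ((hGME a).2.2.2 Φ b k1 J δ M).1 hev
  -- finite variation
  have hS : MeasurableSet {σ : Stack 2 | ∑' i, ENNReal.ofReal |2 * σ (0, true) i - a| ≠ ∞} := by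
    have hm : Measurable fun σ : Stack 2 => ∑' i, ENNReal.ofReal |2 * σ (0, true) i - a| := by
      refine Measurable.ennreal_tsum fun i => ?_
      refine ENNReal.measurable_ofReal.comp ?_
      have h1 : Measurable fun σ : Stack 2 => σ (0, true) i :=
        (measurable_pi_apply i).comp (measurable_pi_apply (0, true))
      have h2 : Measurable fun σ : Stack 2 => 2 * σ (0, true) i - a :=
        (h1.const_mul 2).sub_const a
      exact h2.abs
    exact (hm (measurableSet_singleton ∞)).compl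
  have hfin : ∀ᵐ ω ∂P, ∀ z, ∑' i, ENNReal.ofReal |2 * ω z (0, true) i - a| ≠ ∞ := by
    rw [ae_all_iff]
    intro z
    have h1 : ∀ᵐ ω ∂P, ω 0 ∈ {σ : Stack 2 | ∑' i, ENNReal.ofReal |2 * σ (0, true) i - a| ≠ ∞} := by
      filter_upwards [(hTJZ P a W hW hV).1] with ω hω
      exact hω.1
    have hm0 : Measurable (fun ω : Env 2 => ω 0) := measurable_pi_apply 0
    have h2 := (ae_map_iff hm0.aemeasurable hS).2 h1
    rw [← hSE.map_eq z] at h2
    have hmz : Measurable (fun ω : Env 2 => ω z) := measurable_pi_apply z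
    exact ae_of_ae_map hmz.aemeasurable h2
  have hnull : P {ω | ∃ᶠ s in atTop, ω ∈ {ω | GS a Φ b k1 J δ M s ω}} = 0 := by
    have h3 : ∀ᵐ ω ∂P, ω ∉ GE a Φ b k1 J δ M := measure_eq_zero_iff_ae_notMem.1 h0
    have h4 : ∀ᵐ ω ∂P, ω ∉ {ω | ∃ᶠ s in atTop, ω ∈ {ω | GS a Φ b k1 J δ M s ω}} := by
      filter_upwards [h3, hfin] with ω h5 h6 h7
      exact h5 ⟨h6, h7⟩
    exact measure_eq_zero_iff_ae_notMem.2 h4
  rw [Measure.real, hnull] at hL
  norm_num at hL

end Pool.Agent.Helper61.EXC
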