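import Pool.Agent.Helper99.EXC.GoalsD

/-!
# SEC: second moment from the near martingale (project EXC)
-/

namespace Pool.Agent.Helper61.EXC

open Pool.Agent.Helper99.EXC Pool.Agent.Helper99.ERW Finset

section

variable {p : Site 2 → ℕ → ℝ} {Λ : Finset (Site 2)} {c β W : St → ℝ}

/-- product with a function known at the successors -/
theorem stp_mul_of {f h : St → ℝ} {s : St} {k : ℝ} (hk : ∀ e, f (nxt s e) = k) :
    stp p (fun s => f s * h s) s = k * stp p h s := by
  simp only [stp, hk]; ring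

/-- the covariation -/
noncomputable def cov (p : Site 2 → ℕ → ℝ) (Λ : Finset (Site 2)) (c F : St → ℝ) (N : ℕ)
    (s : St) : ℝ := Rw p Λ N (fun s => F s * c s) s - c s * Rw p Λ N F s

theorem cov_succ (hc : ∀ s, s.1 ∈ Λ → ∀ e, c (nxt s e) = c s + β s) (F : St → ℝ) (N : ℕ)
    {s : St} (hs : s.1 ∈ Λ) :
    cov p Λ c F (N + 1) s = stp p (cov p Λ c F N) s + β s * stp p (Rw p Λ N F) s := by
  have h1 : stp p (cov p Λ c F N) s =
      stp p (Rw p Λ N (fun s => F s * c s)) s - (c s + β s) * stp p (Rw p Λ N F) s := by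
    rw [← stp_mul_of (h := Rw p Λ N F) (hc s hs), ← stp_sub]
    rfl
  rw [h1, cov, Rw_succ, Rw_succ, inn_in Λ hs, inn_in Λ hs, KK_in p Λ hs, KK_in p Λ hs]
  ring

theorem cov_out (F : St → ℝ) (N : ℕ) {s : St} (hs : s.1 ∉ Λ) : cov p Λ c F N s = 0 := by
  rw [cov, Rw_out p Λ N _ hs, Rw_out p Λ N _ hs]
  ring

theorem cov_zero (F : St → ℝ) (s : St) : cov p Λ c F 0 s = 0 := by
  rw [cov, Rw_zero, Rw_zero]
  ring

theorem cov_eq (F : St → ℝ) (N : ℕ) (s0 : St) :
    Rw p Λ N (fun s => F s * (c s - c s0)) s0 = cov p Λ c F N s0 := by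
  have h1 : (fun s => F s * (c s - c s0)) = fun s => F s * c s - c s0 * F s := by
    funext s; ring
  rw [h1, Rw_sub, Rw_smul, cov]

end

theorem stp_abs {p : Site 2 → ℕ → ℝ} (hp0 : ∀ z i, 0 ≤ p z i) (hp1 : ∀ z i, p z i ≤ 1)
    {f g : St → ℝ} (h : ∀ s, |f s| ≤ g s) (s : St) : |stp p f s| ≤ stp p g s := by
  rw [abs_le]
  constructor
  · have h1 := stp_mono hp0 hp1 (f := fun s => -1 * g s) (g := f) (s := s)
      (fun e => by linarith [(abs_le.1 (h (nxt s e))).1])
    rw [stp_smul] at h1
    linarith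
  · exact stp_mono hp0 hp1 fun e => (abs_le.1 (h (nxt s e))).2

theorem SEC : Pool.Agent.Helper99.EXC.SEC_stmt := by
  intro p hp0 hp1 Λ c β μ W cinf κ' A B a' m ε hκ hA hB hm hε hc hW hW0 hWa hβ hμ0 hμm hu N s0
  have hone : ∀ (N : ℕ) (s : St), 0 ≤ Ex p Λ N (one Λ) s := fun N s =>
    Ex_nonneg hp0 hp1 Λ N (fun s => by unfold one; split_ifs <;> norm_num) s
  have ha' : 0 ≤ a' := (hW0 s0).trans (hWa s0)
  -- the expectation of `c`
  have hEc : ∀ (N : ℕ) (s : St), Rw p Λ N β s = Ex p Λ N c s - c s := by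
    intro N s
    have h1 := tele p Λ N (F := c) (g := β) (fun s hs => stp_of_eq p (hc s hs)) s
    linarith
  -- the total variation
  have hRb : ∀ (N : ℕ) (s : St), Rw p Λ N (fun s => |β s|) s ≤ W s := by
    intro N s
    have h1 := tele p Λ N (F := W) (g := fun s => -1 * |β s|) (fun s hs => by
      rw [stp_of_eq p (hW s hs)]; ring) s
    rw [Rw_smul] at h1
    have h2 := Ex_nonneg hp0 hp1 Λ N hW0 s
    linarith
  have hRb0 : ∀ (N : ℕ) (s : St), 0 ≤ Rw p Λ N (fun s => |β s|) s := fun N s =>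
    Rw_nonneg hp0 hp1 Λ N (fun s _ => abs_nonneg _) s
  -- the key bound
  let g : St → ℝ := fun s => μ s * (c s + β s - cinf)
  have key : ∀ (N : ℕ) (s : St), |κ' * cov p Λ c β N s + cov p Λ c g N s| ≤
      W s * (A + B * Ex p Λ N (one Λ) s) := by
    intro N
    induction N with
    | zero =>
      intro s
      rw [cov_zero, cov_zero, mul_zero, add_zero, abs_zero]
      exact mul_nonneg (hW0 s) (add_nonneg hA (mul_nonneg hB (hone 0 s)))
    | succ N ih =>
      intro s
      by_cases hs : s.1 ∈ Λ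
      · have h1 : κ' * cov p Λ c β (N + 1) s + cov p Λ c g (N + 1) s =
            stp p (fun s => κ' * cov p Λ c β N s + cov p Λ c g N s) s +
              β s * stp p (fun s => κ' * (Ex p Λ N c s - c s) + Rw p Λ N g s) s := by
          rw [cov_succ hc β N hs, cov_succ hc g N hs, stp_add, stp_smul]
          have h2 : stp p (fun s => κ' * (Ex p Λ N c s - c s) + Rw p Λ N g s) s =
              κ' * stp p (Rw p Λ N β) s + stp p (Rw p Λ N g) s := by
            rw [stp_add, stp_smul]
            congr 2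
            congr 1
            funext s
            exact (hEc N s).symm
          rw [h2]
          ring
        rw [h1]
        have h3 := stp_abs hp0 hp1 ih s
        have h4 := stp_abs hp0 hp1 (hu N) s
        have h5 : stp p (fun s => W s * (A + B * Ex p Λ N (one Λ) s)) s =
            (W s - |β s|) * (A + B * Ex p Λ (N + 1) (one Λ) s) := by
          rw [stp_mul_of (h := fun s => A + B * Ex p Λ N (one Λ) s) (hW s hs), stp_add, stp_const,
            stp_smul, Ex_succ, KK_in p Λ hs]
        have h6 : stp p (fun s => A + B * Ex p Λ N (one Λ) s) s =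
            A + B * Ex p Λ (N + 1) (one Λ) s := by
          rw [stp_add, stp_const, stp_smul, Ex_succ, KK_in p Λ hs]
        rw [h5] at h3
        rw [h6] at h4
        refine (abs_add_le _ _).trans ?_
        rw [abs_mul]
        have h7 := mul_le_mul_of_nonneg_left h4 (abs_nonneg (β s))
        calc _ ≤ (W s - |β s|) * (A + B * Ex p Λ (N + 1) (one Λ) s) +
              |β s| * (A + B * Ex p Λ (N + 1) (one Λ) s) := add_le_add h3 h7
          _ = W s * (A + B * Ex p Λ (N + 1) (one Λ) s) := by ring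
      · rw [cov_out β (N + 1) hs, cov_out g (N + 1) hs, mul_zero, add_zero, abs_zero]
        exact mul_nonneg (hW0 s) (add_nonneg hA (mul_nonneg hB (hone (N + 1) s)))
  -- the second moment
  have h4 : Ex p Λ N (fun s => (c s - c s0) ^ 2) s0 =
      2 * cov p Λ c β N s0 + Rw p Λ N (fun s => β s ^ 2) s0 := by
    have h1 := tele p Λ N (F := fun s => (c s - c s0) ^ 2)
      (g := fun s => 2 * (β s * (c s - c s0)) + β s ^ 2) (fun s hs => by
        rw [stp_of_eq p (c := (c s + β s - c s0) ^ 2) (fun e => by rw [hc s hs e])]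
        ring) s0
    rw [h1, Rw_add, Rw_smul, cov_eq]
    ring
  have h5 : Rw p Λ N (fun s => β s ^ 2) s0 ≤ ε * a' := by
    have h6 : Rw p Λ N (fun s => β s ^ 2) s0 ≤ Rw p Λ N (fun s => ε * |β s|) s0 :=
      Rw_mono hp0 hp1 Λ N (fun s _ => by
        rw [← sq_abs, sq]
        exact mul_le_mul_of_nonneg_right (hβ s) (abs_nonneg _)) s0
    rw [Rw_smul] at h6
    refine h6.trans (mul_le_mul_of_nonneg_left ?_ hε)
    exact (hRb N s0).trans (hWa s0)
  -- the lower bound
  have h7 : -((c s0 - cinf) ^ 2 / 4 * Rw p Λ N μ s0) - m * a' * a' ≤ cov p Λ c g N s0 := by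
    rw [← cov_eq]
    have h8 : Rw p Λ N (fun s => -((c s0 - cinf) ^ 2 / 4) * μ s + -(m * a') * |β s|) s0 ≤
        Rw p Λ N (fun s => g s * (c s - c s0)) s0 := by
      refine Rw_mono_inv hp0 hp1 Λ N (I := fun s => |c s - c s0| ≤ W s0 - W s) ?_ ?_ s0 ?_
      · intro s hI hs e
        rw [hc s hs e, hW s hs e]
        have h9 : |c s + β s - c s0| ≤ |c s - c s0| + |β s| := by
          have : c s + β s - c s0 = (c s - c s0) + β s := by ring
          rw [this]
          exact abs_add_le _ _
        linarith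
      · intro s hI _
        have hd : |c s - c s0| ≤ a' := by linarith [hW0 s, hWa s0]
        have h10 : -((c s0 - cinf) ^ 2 / 4) - |β s| * a' ≤
            (c s + β s - cinf) * (c s - c s0) := by
          have h11 : (c s + β s - cinf) * (c s - c s0) =
              ((c s - cinf) - (c s0 - cinf) / 2) ^ 2 - (c s0 - cinf) ^ 2 / 4 +
                β s * (c s - c s0) := by ring
          have h12 : -(|β s| * a') ≤ β s * (c s - c s0) := by
            have h13 : |β s * (c s - c s0)| ≤ |β s| * a' := by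
              rw [abs_mul]
              exact mul_le_mul_of_nonneg_left hd (abs_nonneg _)
            linarith [neg_abs_le (β s * (c s - c s0))]
          rw [h11]
          nlinarith [sq_nonneg ((c s - cinf) - (c s0 - cinf) / 2)]
        have h14 := mul_le_mul_of_nonneg_left h10 (hμ0 s)
        have h15 : μ s * (|β s| * a') ≤ m * a' * |β s| := by
          have := mul_le_mul_of_nonneg_right (hμm s) (mul_nonneg (abs_nonneg (β s)) ha')
          linarith
        change _ ≤ μ s * (c s + β s - cinf) * (c s - c s0)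
        rw [mul_assoc]
        linarith
      · simp
    rw [Rw_add, Rw_smul, Rw_smul] at h8
    have h16 : m * a' * Rw p Λ N (fun s => |β s|) s0 ≤ m * a' * a' :=
      mul_le_mul_of_nonneg_left ((hRb N s0).trans (hWa s0)) (mul_nonneg hm ha')
    linarith
  have h17 := (le_abs_self _).trans (key N s0)
  have h18 : W s0 * (A + B * Ex p Λ N (one Λ) s0) ≤ a' * (A + B * Ex p Λ N (one Λ) s0) :=
    mul_le_mul_of_nonneg_right (hWa s0) (add_nonneg hA (mul_nonneg hB (hone N s0)))
  have h19 : κ' * Rw p Λ N (fun s => β s ^ 2) s0 ≤ κ' * (ε * a') :=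
    mul_le_mul_of_nonneg_left h5 hκ.le
  rw [h4]
  have e : κ' * (2 * cov p Λ c β N s0 + Rw p Λ N (fun s => β s ^ 2) s0) =
    2 * (κ' * cov p Λ c β N s0 + cov p Λ c g N s0) - 2 * cov p Λ c g N s0 +
      κ' * Rw p Λ N (fun s => β s ^ 2) s0 := by ring
  rw [e]
  nlinarith [h17, h18, h19, h7]

end Pool.Agent.Helper61.EXC
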